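import Pool.Agent.KS6_50.AC.Rich

/-!
# Two-sided base words over three weights
-/

set_option autoImplicit false

namespace Pool.Agent.KS6_50.AC

open Finset Pool.Agent.Helper776 Pool.Agent.Helper776.Dekking Pool.Agent.Y469.AC

/-- For every three different weights `w 0, w 1, w 2` there is a two-sided word over `{0, 1, 2}`
whose weights contain no additive cube. -/
theorem base_word (w : ℕ → ℕ) (h01 : w 0 ≠ w 1) (h02 : w 0 ≠ w 2) (h12 : w 1 ≠ w 2) :
    ∃ x : ℤ → ℕ, (∀ m, x m < 3) ∧ ¬ HasPowerZ 3 (fun m => (w (x m) : ℤ)) := by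
  have i01 : (w 0 : ℤ) ≠ w 1 := by exact_mod_cast h01
  have i02 : (w 0 : ℤ) ≠ w 2 := by exact_mod_cast h02
  have i12 : (w 1 : ℤ) ≠ w 2 := by exact_mod_cast h12
  obtain ⟨c, hc, hcf⟩ := Complete.set_full {(w 0 : ℤ), (w 1 : ℤ), (w 2 : ℤ)} (by
    rw [Finset.card_eq_three.2 ⟨_, _, _, i01, i02, i12, rfl⟩])
  obtain ⟨v, hv, hvf⟩ := twoSided (w 0 : ℤ) (w 1 : ℤ) (w 2 : ℤ) 3 c (fun n => by
    have := hc n
    simpa using this) (cubeFree_iff c hcf)
  refine ⟨fun m => if v m = w 0 then 0 else if v m = w 1 then 1 else 2, fun m => ?_, ?_⟩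
  · dsimp only
    split_ifs <;> norm_num
  · have e : (fun m => ((w (if v m = w 0 then 0 else if v m = w 1 then 1 else 2) : ℕ) : ℤ)) = v := by
      funext m
      rcases hv m with h | h | h
      · rw [if_pos h, h]
      · rw [if_neg (by rw [h]; exact i01.symm), if_pos h, h]
      · rw [if_neg (by rw [h]; exact i02.symm), if_neg (by rw [h]; exact i12.symm), h]
    rw [e]
    exact hvf

end Pool.Agent.KS6_50.AC
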