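import Pool.Agent.KS6_50.AC.BaseWord

set_option autoImplicit false

/-!
The alphabet {0,1,4} is rich: a uniform map of length 36 with two images for
every letter.
-/

namespace Pool.Agent.KS6_50.AC.R014

open Pool.Agent.Helper776 Pool.Agent.Helper776.Dekking Pool.Agent.Y469.AC

/-- packed letters of the images (3 bits each, least significant first); the second images of the
letters are those of `a + 3` -/
def gcode (a : ℕ) : ℕ :=
  if a = 0 then 5080583331145337611277249548576 else
  if a = 1 then 7928408780933652660740648341792 else
  if a = 2 then 7928417263815335987163028525344 else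
  if a = 3 then 5080583331145329729977901650208 else
  if a = 4 then 7928408780933644779441300443424 else
  7928417263815328105863680626976

/-- packed prefix sums of the images (8 bits each) -/
def pcode (a : ℕ) : ℕ :=
  if a = 0 then 21468753896980091525492284573115014288862901315949071212213083938580378114369997364264960 else
  if a = 1 then 27959309584427587135210781073947673399316337632355270958144329037263909351738891584143360 else
  if a = 2 then 34449865391375704566948156841543772002927749517105519922152810522859337929189907820183552 else
  if a = 3 then 21468753896980091525492284573115014288862901316297520355940124925166873712380128012795904 else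
  if a = 4 then 27959309584427587135210781073947673399316337632703720101871370023850404949749022232674304 else
  34449865391375704566948156841543772002927749517453969065879851509445833527200038468714496

/-- the letter at place r of the image of a -/
def G (a r : ℕ) : ℕ := (gcode a >>> (3 * r)) % 8

/-- prefix sums of images -/
def p (a r : ℕ) : ℕ := (pcode a >>> (8 * r)) % 256

/-- weights of the base letters -/
def w (a : ℕ) : ℕ :=
  if a = 0 then 0 else
  if a = 1 then 1 else
  if a = 2 then 2 else
  if a = 3 then 0 else
  if a = 4 then 1 else
  2

/-- switch places -/
def sw (a : ℕ) : ℕ :=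
  if a = 0 then 28 else
  if a = 1 then 28 else
  if a = 2 then 21 else
  if a = 3 then 28 else
  if a = 4 then 28 else
  21

def mask : ℕ := 744649490031544155455519602925123422747813481878322943661179393407919281467424739042799264504856829218124856133837139722339364369579655441

def M : ℕ := 329659661725223710955058264503988101532914530221575069511073331791837369165760701483771627395573724627659157554299849929045451915362605131982218421129766250600054354365275269749194028378248260185806814731188210455613379203004811825661452093621389162232159589232776121225193302298087220382800107507470199426677593044098942981487338040795033100076679399004728659758652928047063216119615255060332229363477411731383046063989128914438379089066931666363931332782498427655254244208280153728759585320452967249320283452681709984790836851411128781353043155209296818487569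

theorem c0 : ∀ a < 6, p a 0 = 0 := by decide +kernel
theorem cw : ∀ a < 3, w (a + 3) = w a := by decide +kernel
theorem cL : ∀ a < 6, p a 36 = 43 + 13 * w a := by decide +kernel
theorem cs : ∀ a < 6, ∀ r < 36, p a (r + 1) = p a r + G a r := by decide +kernel
theorem cm : ∀ a < 6, ∀ r < 36, mask.testBit (Cert.cls 36 13 35 p a r) = true := by
  decide +kernel
theorem cM' : ∀ q < 4 * 13, ∀ r < 36, M.testBit (36 * q + r) =
    mask.testBit ((36 * q + r) % (36 * 13)) := by
  decide +kernel
theorem cM (e : ℕ) (he : e < 4 * (36 * 13)) : M.testBit e = mask.testBit (e % (36 * 13)) := by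
  have h := cM' (e / 36) (by omega) (e % 36) (Nat.mod_lt _ (by norm_num))
  rwa [Nat.div_add_mod] at h
theorem cA' : ∀ q < 13, ∀ r < 36, 0 < 36 * q + r →
    (mask &&& (M >>> (36 * q + r)) &&& (M >>> (2 * (36 * q + r))) &&&
      (M >>> (3 * (36 * q + r)))) = 0 := by decide +kernel
theorem cA (d : ℕ) (hd : d < 36 * 13) (h0 : 0 < d) :
    (mask &&& (M >>> d) &&& (M >>> (2 * d)) &&& (M >>> (3 * d))) = 0 := by
  have h := cA' (d / 36) (by omega) (d % 36) (Nat.mod_lt _ (by norm_num))
  rw [Nat.div_add_mod] at h
  exact h h0
set_option synthInstance.maxSize 100000 in
theorem ct : ∀ r < 36, ∀ a < 6, ∀ b < 6, p a r % 13 = p b r % 13 →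
    ((r < sw a ∧ r < sw b ∧ p a r = p b r) ∨
     (sw a ≤ r ∧ sw b ≤ r ∧ p a r + 13 * w b = p b r + 13 * w a)) := by decide +kernel
theorem cG : ∀ a < 6, ∀ r < 36, G a r = 0 ∨ G a r = 1 ∨ G a r = 4 := by decide +kernel
theorem cd : ∀ a < 3, G (a + 3) 16 ≠ G a 16 := by decide +kernel

theorem rich : Rich ({0, 1, 4} : Set ℤ) := by
  obtain ⟨x, hx, hxf⟩ := base_word w (by decide) (by decide) (by decide)
  refine rich_of_cert _ 36 13 43 35 16 w sw G p mask M (by norm_num) (by norm_num)
    (by norm_num) (by norm_num) (fun a ha r hr => ?_) cw c0 cL cs cm cM cA ct x hx hxf
    (fun k => ?_)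
  · rcases cG a ha r hr with h | h | h <;> simp [h]
  · obtain ⟨m, h1, h2⟩ := window 36 16 (by norm_num) (by norm_num) k
    exact ⟨m, h1, h2, cd (x m) (hx m)⟩

end Pool.Agent.KS6_50.AC.R014
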