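import Pool.Agent.KS6_50.AC.BaseWord

set_option autoImplicit false

/-!
The alphabet {0,1,5} is rich: a uniform map of length 35 with two images for
two of the three letters.
-/

namespace Pool.Agent.KS6_50.AC.R015

open Pool.Agent.Helper776 Pool.Agent.Helper776.Dekking Pool.Agent.Y469.AC

/-- packed letters of the images (3 bits each, least significant first); the second images of the
letters are those of `a + 3` -/
def gcode (a : ℕ) : ℕ :=
  if a = 0 then 768927601482459168799767693832 else
  if a = 1 then 768928111539454420894749854216 else
  if a = 2 then 768928111539697644138546911752 else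
  if a = 3 then 768927601482459168799767693832 else
  if a = 4 then 768929169349546583695277722120 else
  768929169349789806939074779656

/-- packed prefix sums of the images (8 bits each) -/
def pcode (a : ℕ) : ℕ :=
  if a = 0 then 87762894194768784384602784457379108010435081424703205664068840838167990072490179231744 else
  if a = 1 then 113116627815659868102327732889961669386730312398480872454701085055609747594199791894528 else
  if a = 2 then 163824095057442035537778471916696343279319997829604542669457470581802975287207862009856 else
  if a = 3 then 87762894194768784384602784457379108010435081424703205664068840838167990072490179231744 else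
  if a = 4 then 113116627815659868102326087385404348180688157429298315104196102319744114014336443285504 else
  163824095057442035537776826412139022073277842860421985318952487845937341707344513400832

/-- the letter at place r of the image of a -/
def G (a r : ℕ) : ℕ := (gcode a >>> (3 * r)) % 8

/-- prefix sums of images -/
def p (a r : ℕ) : ℕ := (pcode a >>> (8 * r)) % 256

/-- weights of the base letters -/
def w (a : ℕ) : ℕ :=
  if a = 0 then 0 else
  if a = 1 then 1 else
  if a = 2 then 3 else
  if a = 3 then 0 else
  if a = 4 then 1 else
  3

/-- switch places -/
def sw (a : ℕ) : ℕ :=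
  if a = 0 then 19 else
  if a = 1 then 19 else
  if a = 2 then 5 else
  if a = 3 then 19 else
  if a = 4 then 19 else
  5

def mask : ℕ := 36199986357285641463790362850910445311053060450964758039401279252528095732731847054889055187747879708607025607865879082952276232568833

def M : ℕ := 29150934941111340208442707265112403014900029898197234244966493658752719014782845761250901407583946750154901594687796246378586876330524695615227631660656408837586660816954886020804399126365021933592735719265707481205285675227231832328884955070983868783996962409894373034557660293689076333143778873534348950419558377949417576173212425840981115616880066161713072112329550158796718895259355082091294176889946244409786892725462021497763753666456799735720329150729982411147290830564035627910167911910901433590423658941665557220279412302565386083303425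

theorem c0 : ∀ a < 6, p a 0 = 0 := by decide +kernel
theorem cw : ∀ a < 3, w (a + 3) = w a := by decide +kernel
theorem cL : ∀ a < 6, p a 35 = 45 + 13 * w a := by decide +kernel
theorem cs : ∀ a < 6, ∀ r < 35, p a (r + 1) = p a r + G a r := by decide +kernel
theorem cm : ∀ a < 6, ∀ r < 35, mask.testBit (Cert.cls 35 13 33 p a r) = true := by
  decide +kernel
theorem cM' : ∀ q < 4 * 13, ∀ r < 35, M.testBit (35 * q + r) =
    mask.testBit ((35 * q + r) % (35 * 13)) := by
  decide +kernel
theorem cM (e : ℕ) (he : e < 4 * (35 * 13)) : M.testBit e = mask.testBit (e % (35 * 13)) := by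
  have h := cM' (e / 35) (by omega) (e % 35) (Nat.mod_lt _ (by norm_num))
  rwa [Nat.div_add_mod] at h
theorem cA' : ∀ q < 13, ∀ r < 35, 0 < 35 * q + r →
    (mask &&& (M >>> (35 * q + r)) &&& (M >>> (2 * (35 * q + r))) &&&
      (M >>> (3 * (35 * q + r)))) = 0 := by decide +kernel
theorem cA (d : ℕ) (hd : d < 35 * 13) (h0 : 0 < d) :
    (mask &&& (M >>> d) &&& (M >>> (2 * d)) &&& (M >>> (3 * d))) = 0 := by
  have h := cA' (d / 35) (by omega) (d % 35) (Nat.mod_lt _ (by norm_num))
  rw [Nat.div_add_mod] at h
  exact h h0
set_option synthInstance.maxSize 100000 in
theorem ct : ∀ r < 35, ∀ a < 6, ∀ b < 6, p a r % 13 = p b r % 13 →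
    ((r < sw a ∧ r < sw b ∧ p a r = p b r) ∨
     (sw a ≤ r ∧ sw b ≤ r ∧ p a r + 13 * w b = p b r + 13 * w a)) := by decide +kernel
theorem cG : ∀ a < 6, ∀ r < 35, G a r = 0 ∨ G a r = 1 ∨ G a r = 5 := by decide +kernel
theorem cd : ∀ a < 3, a ≠ 0 → G (a + 3) 25 ≠ G a 25 := by decide +kernel

theorem rich : Rich ({0, 1, 5} : Set ℤ) := by
  obtain ⟨x, hx, hxf⟩ := base_word w (by decide) (by decide) (by decide)
  refine rich_of_cert _ 35 13 45 33 25 w sw G p mask M (by norm_num) (by norm_num)
    (by norm_num) (by norm_num) (fun a ha r hr => ?_) cw c0 cL cs cm cM cA ct x hx hxf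
    (fun k => ?_)
  · rcases cG a ha r hr with h | h | h <;> simp [h]
  · obtain ⟨m, h1, h2, h3⟩ := window3 35 25 (by norm_num) (by norm_num) x
      (fun a => (w a : ℤ)) hxf 0 k
    exact ⟨m, h1, h2, cd (x m) (hx m) h3⟩

end Pool.Agent.KS6_50.AC.R015
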