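import Pool.Agent.KS6_50.AC.BaseWord

set_option autoImplicit false

/-!
The alphabet {0,2,5} is rich: a uniform map of length 26 with two images for
every letter.
-/

namespace Pool.Agent.KS6_50.AC.R025

open Pool.Agent.Helper776 Pool.Agent.Helper776.Dekking Pool.Agent.Y469.AC

/-- packed letters of the images (3 bits each, least significant first); the second images of the
letters are those of `a + 3` -/
def gcode (a : ℕ) : ℕ :=
  if a = 0 then 9490885936774148969810 else
  if a = 1 then 9493456590561842746706 else
  if a = 2 then 12790091517797045818706 else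
  if a = 3 then 9490885936774148959058 else
  if a = 4 then 9493456590561842735954 else
  12790091517797045807954

/-- packed prefix sums of the images (8 bits each) -/
def pcode (a : ℕ) : ℕ :=
  if a = 0 then 22714403246643442531517654377194334277789781927683713490120606208 else
  if a = 1 then 28083265174844394201605492866348914985388526160587397189962301952 else
  if a = 2 then 33452126979485262134807098372524965953866424528130857790247010816 else
  if a = 3 then 22714403246643442531517654377194334277789781927683713503005508096 else
  if a = 4 then 28083265174844394201605492866348914985388526160587397202847203840 else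
  33452126979485262134807098372524965953866424528130857803131912704

/-- the letter at place r of the image of a -/
def G (a r : ℕ) : ℕ := (gcode a >>> (3 * r)) % 8

/-- prefix sums of images -/
def p (a r : ℕ) : ℕ := (pcode a >>> (8 * r)) % 256

/-- weights of the base letters -/
def w (a : ℕ) : ℕ :=
  if a = 0 then 1 else
  if a = 1 then 2 else
  if a = 2 then 3 else
  if a = 3 then 1 else
  if a = 4 then 2 else
  3

/-- switch places -/
def sw (a : ℕ) : ℕ :=
  if a = 0 then 15 else
  if a = 1 then 20 else
  if a = 2 then 20 else
  if a = 3 then 15 else
  if a = 4 then 20 else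
  20

def mask : ℕ := 297466165368973357682717057559902283538060220078014197242013299278923788802420810207884788018293506305

def M : ℕ := 52221961263439627748442233780939980777517348183127359775695165630728723742098706360994405144853034021123533235023198562988883684175837510716935713250349134935721612997479665485359084562041757658555197305072987130007678128156463437116579556519526258488066326308371139262564915047392461257137978662118821509859276438275232130109524326359797906369369658819247767491965744756806146613487605274932293359238381825

theorem c0 : ∀ a < 6, p a 0 = 0 := by decide +kernel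
theorem cw : ∀ a < 3, w (a + 3) = w a := by decide +kernel
theorem cL : ∀ a < 6, p a 26 = 42 + 13 * w a := by decide +kernel
theorem cs : ∀ a < 6, ∀ r < 26, p a (r + 1) = p a r + G a r := by decide +kernel
theorem cm : ∀ a < 6, ∀ r < 26, mask.testBit (Cert.cls 26 13 23 p a r) = true := by
  decide +kernel
theorem cM' : ∀ q < 4 * 13, ∀ r < 26, M.testBit (26 * q + r) =
    mask.testBit ((26 * q + r) % (26 * 13)) := by
  decide +kernel
theorem cM (e : ℕ) (he : e < 4 * (26 * 13)) : M.testBit e = mask.testBit (e % (26 * 13)) := by
  have h := cM' (e / 26) (by omega) (e % 26) (Nat.mod_lt _ (by norm_num))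
  rwa [Nat.div_add_mod] at h
theorem cA' : ∀ q < 13, ∀ r < 26, 0 < 26 * q + r →
    (mask &&& (M >>> (26 * q + r)) &&& (M >>> (2 * (26 * q + r))) &&&
      (M >>> (3 * (26 * q + r)))) = 0 := by decide +kernel
theorem cA (d : ℕ) (hd : d < 26 * 13) (h0 : 0 < d) :
    (mask &&& (M >>> d) &&& (M >>> (2 * d)) &&& (M >>> (3 * d))) = 0 := by
  have h := cA' (d / 26) (by omega) (d % 26) (Nat.mod_lt _ (by norm_num))
  rw [Nat.div_add_mod] at h
  exact h h0
set_option synthInstance.maxSize 100000 in
theorem ct : ∀ r < 26, ∀ a < 6, ∀ b < 6, p a r % 13 = p b r % 13 →
    ((r < sw a ∧ r < sw b ∧ p a r = p b r) ∨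
     (sw a ≤ r ∧ sw b ≤ r ∧ p a r + 13 * w b = p b r + 13 * w a)) := by decide +kernel
theorem cG : ∀ a < 6, ∀ r < 26, G a r = 0 ∨ G a r = 2 ∨ G a r = 5 := by decide +kernel
theorem cd : ∀ a < 3, G (a + 3) 3 ≠ G a 3 := by decide +kernel

theorem rich : Rich ({0, 2, 5} : Set ℤ) := by
  obtain ⟨x, hx, hxf⟩ := base_word w (by decide) (by decide) (by decide)
  refine rich_of_cert _ 26 13 42 23 3 w sw G p mask M (by norm_num) (by norm_num)
    (by norm_num) (by norm_num) (fun a ha r hr => ?_) cw c0 cL cs cm cM cA ct x hx hxf
    (fun k => ?_)
  · rcases cG a ha r hr with h | h | h <;> simp [h]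
  · obtain ⟨m, h1, h2⟩ := window 26 3 (by norm_num) (by norm_num) k
    exact ⟨m, h1, h2, cd (x m) (hx m)⟩

end Pool.Agent.KS6_50.AC.R025
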