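import Pool.Agent.KS6_50.AC.RTern
import Pool.Agent.KS6_50.AC.R012
import Pool.Agent.KS6_50.AC.R013
import Pool.Agent.KS6_50.AC.R014
import Pool.Agent.KS6_50.AC.R015
import Pool.Agent.KS6_50.AC.R025

/-!
# Every alphabet with three elements of a torsion-free group is rich
-/

set_option autoImplicit false

namespace Pool.Agent.KS6_50.AC

open Finset Pool.Agent.Helper776 Pool.Agent.Helper776.Dekking Pool.Agent.Y469.AC

/-- affine images -/
theorem Rich.affine {A : Set ℤ} (h : Rich A) (B : Set ℤ) (a d : ℤ) (hd : d ≠ 0)
    (hAB : ∀ t ∈ A, a + d * t ∈ B) : Rich B := by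
  refine h.map B (fun t => a + d * t) hAB (fun s _ t _ hst => ?_) (fun w _ hw => ?_)
  · exact mul_left_cancel₀ hd (add_left_cancel hst)
  · obtain ⟨p, L, hL, hp⟩ := hw
    refine ⟨p, L, hL, fun i hi => ?_⟩
    have := hp i hi
    simp only [sum_add_distrib, sum_const, card_range, ← mul_sum] at this
    exact mul_left_cancel₀ hd (add_left_cancel this)

/-- normalised triples that are not progressions -/
theorem rich_all (i j : ℕ) (h : Nat.Coprime i j) (hi : 0 < i) (hij : 2 * i < j) :
    Rich ({0, (i : ℤ), (j : ℤ)} : Set ℤ) := by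
  rcases Nat.lt_or_ge j 6 with hj | hj
  · have : j = 3 ∨ j = 4 ∨ j = 5 := by omega
    rcases this with rfl | rfl | rfl
    · have : i = 1 := by omega
      subst this; exact R013.rich
    · have : i = 1 := by omega
      subst this; exact R014.rich
    · have : i = 1 ∨ i = 2 := by omega
      rcases this with rfl | rfl
      · exact R015.rich
      · exact R025.rich
  · exact RTern.rich i j h hi.ne' hj

/-- increasing triples of integers -/
theorem rich_triple (a b c : ℤ) (hab : a < b) (hbc : b < c) : Rich ({a, b, c} : Set ℤ) := by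
  by_cases hne : a + c = 2 * b
  · refine R012.rich.affine _ a (b - a) (by omega) ?_
    intro t ht
    simp only [Set.mem_insert_iff, Set.mem_singleton_iff] at ht ⊢
    rcases ht with rfl | rfl | rfl
    · left; ring
    · right; left; ring
    · right; right; linarith
  set u := (b - a).toNat with hu
  set v := (c - a).toNat with hv
  have hu' : (u : ℤ) = b - a := by omega
  have hv' : (v : ℤ) = c - a := by omega
  have hu0 : 0 < u := by omega
  have hv0 : 0 < v := by omega
  set g := Nat.gcd u v with hg
  have hg0 : 0 < g := Nat.gcd_pos_of_pos_left _ hu0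
  obtain ⟨i, hi⟩ := Nat.gcd_dvd_left u v
  obtain ⟨j, hj⟩ := Nat.gcd_dvd_right u v
  rw [← hg] at hi hj
  have hcop : Nat.Coprime i j := by
    have h1 : i = u / g := by rw [hi]; exact (Nat.mul_div_cancel_left _ hg0).symm
    have h2 : j = v / g := by rw [hj]; exact (Nat.mul_div_cancel_left _ hg0).symm
    rw [h1, h2]
    exact Nat.coprime_div_gcd_div_gcd hg0
  have hi0 : 0 < i := by
    rcases Nat.eq_zero_or_pos i with h | h
    · rw [h] at hi; omega
    · exact h
  have huv : u < v := by omega
  have hij : i < j := by
    by_contra hh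
    have : g * j ≤ g * i := Nat.mul_le_mul_left g (by omega)
    omega
  have ei : b = a + (g : ℤ) * i := by
    have : (u : ℤ) = g * i := by exact_mod_cast hi
    linarith
  have ej : c = a + (g : ℤ) * j := by
    have : (v : ℤ) = g * j := by exact_mod_cast hj
    linarith
  have hne2 : 2 * i ≠ j := by
    intro h
    apply hne
    rw [ei, ej, ← h]
    push_cast
    ring
  rcases Nat.lt_or_ge (2 * i) j with h | h
  · refine (rich_all i j hcop hi0 h).affine _ a g (by omega) ?_
    intro t ht
    simp only [Set.mem_insert_iff, Set.mem_singleton_iff] at ht ⊢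
    rcases ht with rfl | rfl | rfl
    · left; ring
    · right; left; exact ei.symm
    · right; right; exact ej.symm
  · have hc2 : Nat.Coprime (j - i) j := by
      rw [Nat.coprime_self_sub_left (by omega)]
      exact hcop
    refine (rich_all (j - i) j hc2 (by omega) (by omega)).affine _ c (-g) (by omega) ?_
    intro t ht
    simp only [Set.mem_insert_iff, Set.mem_singleton_iff] at ht ⊢
    rcases ht with rfl | rfl | rfl
    · right; right; ring
    · right; left; rw [ei, ej]; push_cast [Nat.cast_sub hij.le]; ring
    · left; rw [ej]; ring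

/-- any three integers -/
theorem rich_int (a b c : ℤ) (hab : a ≠ b) (hac : a ≠ c) (hbc : b ≠ c) :
    Rich ({a, b, c} : Set ℤ) := by
  have perm : ∀ x y z : ℤ, (x = a ∨ x = b ∨ x = c) → (y = a ∨ y = b ∨ y = c) →
      (z = a ∨ z = b ∨ z = c) → Rich ({x, y, z} : Set ℤ) → Rich ({a, b, c} : Set ℤ) := by
    intro x y z hx hy hz h
    refine h.mono ?_
    intro t ht
    simp only [Set.mem_insert_iff, Set.mem_singleton_iff] at ht ⊢
    rcases ht with rfl | rfl | rfl
    · exact hx
    · exact hy
    · exact hz
  rcases lt_or_gt_of_ne hab with h1 | h1 <;> rcases lt_or_gt_of_ne hac with h2 | h2 <;>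
    rcases lt_or_gt_of_ne hbc with h3 | h3
  · exact rich_triple a b c h1 h3
  · exact perm a c b (by simp) (by simp) (by simp) (rich_triple a c b h2 h3)
  · omega
  · exact perm c a b (by simp) (by simp) (by simp) (rich_triple c a b h2 h1)
  · exact perm b a c (by simp) (by simp) (by simp) (rich_triple b a c h1 h2)
  · omega
  · exact perm b c a (by simp) (by simp) (by simp) (rich_triple b c a h3 h2)
  · exact perm c b a (by simp) (by simp) (by simp) (rich_triple c b a h3 h1)

/-- three elements of a torsion-free abelian group -/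
theorem rich_three {G : Type*} [AddCommGroup G] (hG : TorFree G) (x y z : G) (hxy : x ≠ y)
    (hxz : x ≠ z) (hyz : y ≠ z) : Rich ({x, y, z} : Set G) := by
  classical
  obtain ⟨p, q, hp, hq, hpq, hr⟩ := rel hG (y - x) (z - x) (sub_ne_zero.2 hxy.symm)
    (sub_ne_zero.2 hxz.symm) (fun h => hyz (sub_left_injective h))
  have h0 := rich_int 0 p q hp.symm hq.symm hpq
  let F : ℤ → G := fun t => if t = p then y else if t = q then z else x
  have F0 : F 0 = x := by simp only [F, if_neg hp.symm, if_neg hq.symm]
  have Fp : F p = y := by simp only [F, if_true]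
  have Fq : F q = z := by simp only [F, if_neg hpq.symm, if_true]
  have hmem : ∀ t : ℤ, t ∈ ({0, p, q} : Set ℤ) → t = 0 ∨ t = p ∨ t = q := by
    intro t ht; simpa using ht
  refine h0.map _ F (fun t ht => ?_) (fun s hs t ht hst => ?_) (fun c hc hpow => ?_)
  · rcases hmem t ht with rfl | rfl | rfl
    · rw [F0]; simp
    · rw [Fp]; simp
    · rw [Fq]; simp
  · rcases hmem s hs with rfl | rfl | rfl <;> rcases hmem t ht with rfl | rfl | rfl
    · rfl
    · rw [F0, Fp] at hst; exact absurd hst hxy
    · rw [F0, Fq] at hst; exact absurd hst hxz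
    · rw [F0, Fp] at hst; exact absurd hst.symm hxy
    · rfl
    · rw [Fp, Fq] at hst; exact absurd hst hyz
    · rw [F0, Fq] at hst; exact absurd hst.symm hxz
    · rw [Fp, Fq] at hst; exact absurd hst.symm hyz
    · rfl
  · let α : ℤ → ℤ := fun n => if c n = p then 1 else 0
    let β : ℤ → ℤ := fun n => if c n = q then 1 else 0
    have hcα : ∀ n, c n = α n * p + β n * q := by
      intro n
      simp only [α, β]
      rcases hmem _ (hc n) with h | h | h
      · rw [h, if_neg hp.symm, if_neg hq.symm]; ring
      · rw [h, if_pos rfl, if_neg hpq]; ring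
      · rw [h, if_pos rfl, if_neg hpq.symm]; ring
    have hF : ∀ n, F (c n) = x + (α n • (y - x) + β n • (z - x)) := by
      intro n
      simp only [α, β]
      rcases hmem _ (hc n) with h | h | h
      · rw [h, if_neg hp.symm, if_neg hq.symm, F0]; simp
      · rw [h, if_pos rfl, if_neg hpq, Fp]; simp
      · rw [h, if_pos rfl, if_neg hpq.symm, Fq]; simp
    obtain ⟨s, L, hL, hs⟩ := hpow
    refine ⟨s, L, hL, fun i hi => ?_⟩
    have h1 := hs i hi
    simp only [hF, sum_add_distrib, sum_const, card_range, ← sum_smul] at h1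
    have h2 := add_left_cancel h1
    have h3 : (∑ t ∈ range L, α (s + i * L + t) - ∑ t ∈ range L, α (s + t)) • (y - x) +
        (∑ t ∈ range L, β (s + i * L + t) - ∑ t ∈ range L, β (s + t)) • (z - x) = 0 := by
      rw [sub_smul, sub_smul]
      rw [← sub_eq_zero] at h2
      rw [← h2]
      abel
    have h4 := hr _ _ h3
    simp only [hcα, sum_add_distrib, ← sum_mul]
    linarith

end Pool.Agent.KS6_50.AC
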