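import Pool.Graph.R_seed8.Helper776.Ternary
import Pool.Agent.KS6_50.AC.BaseWord

set_option autoImplicit false

/-!
The alphabets `{0, i, j}` with coprime `i, j` and `6 ≤ j` are rich: a uniform map of length 44 from
the weights 1, 3, 4 to ternary words, with two images for the letters of weight 3 and 4.
-/

namespace Pool.Agent.KS6_50.AC.RTern

open Finset Pool.Agent.Helper776 Pool.Agent.Helper776.Dekking Pool.Agent.Y469.AC

/-- packed images (base 4) of the 44-uniform map; the second images are those of `a + 3` -/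
def gcode (a : ℕ) : ℕ :=
  if a = 0 then 19651715456344559721736458 else
  if a = 1 then 19654796069531294255638794 else
  if a = 2 then 19654796069531268888488202 else
  if a = 3 then 19651715456344559721736458 else
  if a = 4 then 19654796285704076369422602 else
  19654796285704051002272010

/-- packed prefix counts of the letter 0, base 32 -/
def zcode (a : ℕ) : ℕ :=
  if a = 0 then 20817807302147019783037714722271882366868806881071751363721628254208 else
  if a = 1 then 31253915689431088928106023995911333584625269756891954380743915896832 else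
  if a = 2 then 36471969883073148243202865625657068553716288823974025928136424718336 else
  if a = 3 then 20817807302147019783037714722271882366868806881071751363721628254208 else
  if a = 4 then 31253915689431088928106068597401730645871552828328499677466927857664 else
  36471969883073148243202910227147465614962571895410571224859436679168

/-- packed prefix counts of the letter 1, base 32 -/
def ucode (a : ℕ) : ℕ :=
  if a = 0 then 22609869535261088368044725367040607015085297259776059269088630800384 else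
  if a = 1 then 22609869535262718190919918053302946614885556132721433543163561115648 else
  if a = 2 then 22609869535262718190919918053302946614885596027273480825926326419456 else
  if a = 3 then 22609869535261088368044725367040607015085297259776059269088630800384 else
  if a = 4 then 22609869535262718190919873451812549553639273061284888246440549154816 else
  22609869535262718190919873451812549553639312955836935529203314458624

/-- weights of the base letters -/
def w (a : ℕ) : ℕ :=
  if a = 0 then 1 else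
  if a = 1 then 3 else
  if a = 2 then 4 else
  if a = 3 then 1 else
  if a = 4 then 3 else
  4

/-- switch places -/
def sw (a : ℕ) : ℕ :=
  if a = 0 then 18 else
  if a = 1 then 18 else
  if a = 2 then 14 else
  if a = 3 then 18 else
  if a = 4 then 18 else
  14

def g (a r : ℕ) : ℕ := (gcode a >>> (2 * r)) % 4
def z (a r : ℕ) : ℕ := (zcode a >>> (5 * r)) % 32
def u (a r : ℕ) : ℕ := (ucode a >>> (5 * r)) % 32

def cls (a r : ℕ) : ℕ := (203 * z a r + 132 * u a r + (1827 - 39 * r)) % 609

def mask : ℕ := 33196124616745085248565232276710972928932999868349216553497125423782859559894832476885465013662638570423535865064092312263603053883768526201605739666742183280908458721192394830645321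

theorem cls_def (a r : ℕ) : cls a r = (203 * z a r + 132 * u a r + (1827 - 39 * r)) % 609 := rfl

def isz (c : ℕ) : ℕ := if c = 0 then 1 else 0
def iso (c : ℕ) : ℕ := if c = 1 then 1 else 0

theorem zero : ∀ a < 6, z a 0 = 0 ∧ u a 0 = 0 := by decide +kernel

theorem cw : ∀ a < 3, w (a + 3) = w a := by decide +kernel

theorem succ : ∀ a < 6, ∀ r < 44, z a (r + 1) = z a r + isz (g a r) ∧
    u a (r + 1) = u a r + iso (g a r) ∧ g a r < 3 := by decide +kernel

theorem top : ∀ a < 6, z a 44 = 9 + 3 * w a ∧ u a 44 = 13 := by decide +kernel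

theorem band : ∀ a < 6, ∀ r < 44, 44 * u a r ≤ 13 * r + 65 ∧ 13 * r ≤ 44 * u a r + 65 := by
  decide +kernel

theorem memb : ∀ a < 6, ∀ r < 44, mask.testBit (cls a r) = true := by decide +kernel

theorem place : ∀ a < 6, ∀ r < 44, ∀ b < 6, ∀ t < 44, cls a r = cls b t → r = t := by
  decide +kernel

set_option synthInstance.maxSize 100000 in
theorem apfree' : ∀ c < 609, mask.testBit c = true → ∀ d < 609, 0 < d →
    mask.testBit ((c + d) % 609) = true → mask.testBit ((c + 2 * d) % 609) = true →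
    mask.testBit ((c + 3 * d) % 609) = false := by decide +kernel

set_option synthInstance.maxSize 100000 in
theorem types : ∀ r < 44, ∀ a < 6, ∀ b < 6, cls a r = cls b r → u a r = u b r ∧
    ((r < sw a ∧ r < sw b ∧ z a r = z b r) ∨
     (sw a ≤ r ∧ sw b ≤ r ∧ z a r + 3 * w b = z b r + 3 * w a)) := by decide +kernel

theorem cd : ∀ a < 3, a ≠ 0 → g (a + 3) 28 = 0 ∧ g a 28 = 1 := by decide +kernel

/-- the ternary word -/
def y (x : ℕ → ℕ) (n : ℕ) : ℕ := g (x (n / 44)) (n % 44)

/-- indicator vector of the letters 0 and 1 -/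
def yv (x : ℕ → ℕ) (n : ℕ) : ℤ × ℤ := ((isz (y x n) : ℤ), (iso (y x n) : ℤ))

def f : ℤ × ℤ →+ ℤ where
  toFun v := 203 * v.1 + 132 * v.2
  map_zero' := by simp
  map_add' v w := by simp; ring

theorem y_at (x : ℕ → ℕ) (m r : ℕ) (hr : r < 44) : y x (44 * m + r) = g (x m) r := by
  have h1 : (44 * m + r) / 44 = m := by omega
  have h2 : (44 * m + r) % 44 = r := by omega
  simp only [y, h1, h2]

theorem chk (a0 a1 a2 a3 r0 r1 r2 r3 : ℕ) (ha0 : a0 < 6) (ha1 : a1 < 6) (ha2 : a2 < 6) (ha3 : a3 < 6)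
    (h0 : r0 < 44) (h1 : r1 < 44) (h2 : r2 < 44) (h3 : r3 < 44)
    (d1 : (609:ℤ) ∣ ((r0:ℤ) * (-39) + (203 * (z a0 r0:ℤ) + 132 * (u a0 r0:ℤ))) - 2 * ((r1:ℤ) * (-39) + (203 * (z a1 r1:ℤ) + 132 * (u a1 r1:ℤ))) + ((r2:ℤ) * (-39) + (203 * (z a2 r2:ℤ) + 132 * (u a2 r2:ℤ))))
    (d2 : (609:ℤ) ∣ ((r1:ℤ) * (-39) + (203 * (z a1 r1:ℤ) + 132 * (u a1 r1:ℤ))) - 2 * ((r2:ℤ) * (-39) + (203 * (z a2 r2:ℤ) + 132 * (u a2 r2:ℤ))) + ((r3:ℤ) * (-39) + (203 * (z a3 r3:ℤ) + 132 * (u a3 r3:ℤ)))) :
    cls a0 r0 = cls a1 r1 ∧ cls a1 r1 = cls a2 r2 ∧ cls a2 r2 = cls a3 r3 := by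
  have c2 := Ternary.ar1 _ _ _ _ _ _ _ _ _ _ _ _ h0 h1 h2 (cls_def a0 r0) (cls_def a1 r1)
    (cls_def a2 r2) d1
  have c3' := Ternary.ar1 _ _ _ _ _ _ _ _ _ _ _ _ h1 h2 h3 (cls_def a1 r1) (cls_def a2 r2)
    (cls_def a3 r3) d2
  have l0 : cls a0 r0 < 609 := by rw [cls_def]; exact Nat.mod_lt _ (by norm_num)
  have l1 : cls a1 r1 < 609 := by rw [cls_def]; exact Nat.mod_lt _ (by norm_num)
  have m0 := memb a0 ha0 r0 h0
  have m1 := memb a1 ha1 r1 h1
  have m2 := memb a2 ha2 r2 h2
  have m3 := memb a3 ha3 r3 h3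
  generalize cls a0 r0 = C0 at *
  generalize cls a1 r1 = C1 at *
  generalize cls a2 r2 = C2 at *
  generalize cls a3 r3 = C3 at *
  clear d1 d2
  have eq01 : C0 = C1 := by
    by_contra hne
    have hd : 0 < (C1 + 609 - C0) % 609 := by omega
    have e1 : (C0 + (C1 + 609 - C0) % 609) % 609 = C1 := by omega
    have e2 : (C0 + 2 * ((C1 + 609 - C0) % 609)) % 609 = C2 := by omega
    have e3 : (C0 + 3 * ((C1 + 609 - C0) % 609)) % 609 = C3 := by omega
    have := apfree' C0 l0 m0 _ (Nat.mod_lt _ (by norm_num)) hd (by rw [e1]; exact m1)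
      (by rw [e2]; exact m2)
    rw [e3, m3] at this
    exact absurd this (by decide)
  omega

theorem no_cube (x : ℕ → ℕ) (hx : ∀ i, x i < 6)
    (hbase : ∀ m q : ℕ, 0 < q → ¬ IsCube (fun i => (w (x i) : ℤ)) m q) (n k : ℕ) (hk : 0 < k) :
    ¬ IsCube (yv x) n k := by
  intro h
  have key := descend (ι := Fin 6) (V := ℤ × ℤ) 44 (by norm_num) (fun i => ⟨x i, hx i⟩)
    (fun a => (w a : ℤ))
    (fun a r => ((isz (g a r) : ℤ), (iso (g a r) : ℤ))) (fun a r => ((z a r : ℤ), (u a r : ℤ)))
    (3, 0) (9, 13)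
    (fun a => by
      have := zero a a.2
      simp [this.1, this.2])
    (fun a r hr => by
      have := succ a a.2 r hr
      simp [this.1, this.2.1])
    (fun a => by
      have := top a a.2
      ext <;> simp [this.1, this.2]; ring)
    (yv x)
    (fun m r hr => by
      simp only [yv]
      rw [y_at x m r hr])
    (fun z hz => by
      have : z * 3 = 0 := by simpa using hz
      omega)
    609 (-39) f (by simp [f]) (by simp [f])
    (by
      intro a0 a1 a2 a3 r0 r1 r2 r3 h0 h1 h2 h3 d1 d2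
      obtain ⟨eq01, eq12, eq23⟩ := chk a0 a1 a2 a3 r0 r1 r2 r3 a0.2 a1.2 a2.2 a3.2 h0 h1 h2 h3 d1 d2
      have hr01 : r0 = r1 := place a0 a0.2 r0 h0 a1 a1.2 r1 h1 eq01
      have hr12 : r1 = r2 := place a1 a1.2 r1 h1 a2 a2.2 r2 h2 eq12
      have hr23 : r2 = r3 := place a2 a2.2 r2 h2 a3 a3.2 r3 h3 eq23
      subst hr01 hr12 hr23
      refine ⟨⟨rfl, rfl, rfl⟩, ?_⟩
      obtain ⟨u1, t1⟩ := types r0 h0 a0 a0.2 a1 a1.2 eq01
      obtain ⟨u2, t2⟩ := types r0 h0 a1 a1.2 a2 a2.2 eq12
      obtain ⟨u3, t3⟩ := types r0 h0 a2 a2.2 a3 a3.2 eq23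
      clear d1 d2 eq01 eq12 eq23
      simp only [Prod.mk.injEq, Prod.smul_mk, smul_eq_mul, mul_zero, Prod.mk_sub_mk, sub_zero]
      have U1 : (u a0 r0 : ℤ) = u a1 r0 := by exact_mod_cast u1
      have U2 : (u a1 r0 : ℤ) = u a2 r0 := by exact_mod_cast u2
      have U3 : (u a2 r0 : ℤ) = u a3 r0 := by exact_mod_cast u3
      rcases t1 with ⟨s1, s1', t1⟩ | ⟨s1, s1', t1⟩ <;>
      rcases t2 with ⟨s2, s2', t2⟩ | ⟨s2, s2', t2⟩ <;>
      rcases t3 with ⟨s3, s3', t3⟩ | ⟨s3, s3', t3⟩ <;>
      first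
        | (exfalso; omega)
        | (left
           exact ⟨⟨by exact_mod_cast t1, U1⟩, ⟨by exact_mod_cast t2, U2⟩,
            ⟨by exact_mod_cast t3, U3⟩⟩)
        | (right
           exact ⟨⟨by omega, U1⟩, ⟨by omega, U2⟩, ⟨by omega, U3⟩⟩))
    n k h
  obtain ⟨m, q, rfl, hq⟩ := key
  exact hbase m q (by omega) hq

/-- number of ones in the prefix of length n -/
theorem ones_dev (x : ℕ → ℕ) (hx : ∀ i, x i < 6) (n : ℕ) :
    |44 * (S (yv x) n).2 - 13 * (n : ℤ)| ≤ 65 := by
  have key := S_image (ι := Fin 6) (V := ℤ × ℤ) 44 (by norm_num) (fun i => ⟨x i, hx i⟩)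
    (fun a => (w a : ℤ))
    (fun a r => ((isz (g a r) : ℤ), (iso (g a r) : ℤ))) (fun a r => ((z a r : ℤ), (u a r : ℤ)))
    (3, 0) (9, 13)
    (fun a => by
      have := zero a a.2
      simp [this.1, this.2])
    (fun a r hr => by
      have := succ a a.2 r hr
      simp [this.1, this.2.1])
    (fun a => by
      have := top a a.2
      ext <;> simp [this.1, this.2]; ring)
    (yv x)
    (fun m r hr => by
      simp only [yv]
      rw [y_at x m r hr]) (n / 44) (n % 44) (Nat.mod_lt _ (by norm_num)).le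
  rw [Nat.div_add_mod] at key
  rw [key]
  have b := band (x (n / 44)) (hx _) (n % 44) (Nat.mod_lt _ (by norm_num))
  have hn : (n : ℤ) = 44 * ((n / 44 : ℕ) : ℤ) + ((n % 44 : ℕ) : ℤ) := by
    exact_mod_cast (Nat.div_add_mod n 44).symm
  simp only [Prod.snd_add, Prod.smul_snd, smul_zero]
  simp only [nsmul_eq_mul]
  rw [abs_le]
  constructor <;> (rw [hn]; push_cast; omega)

/-- adjacent blocks of equal length: the numbers of ones differ by at most 5 -/
theorem ones_balanced (x : ℕ → ℕ) (hx : ∀ i, x i < 6) (n k : ℕ) :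
    |(S (yv x) n).2 - 2 * (S (yv x) (n + k)).2 + (S (yv x) (n + 2 * k)).2| ≤ 5 := by
  have h0 := ones_dev x hx n
  have h1 := ones_dev x hx (n + k)
  have h2 := ones_dev x hx (n + 2 * k)
  rw [abs_le] at *
  push_cast at *
  omega

/-- the letter map -/
def lt (i j c : ℕ) : ℤ := if c = 0 then 0 else if c = 1 then i else j

theorem lt_eq (x : ℕ → ℕ) (i j n : ℕ) :
    lt i j (y x n) = i * (yv x n).2 + j * (1 - (yv x n).1 - (yv x n).2) := by
  unfold lt yv isz iso
  by_cases h0 : y x n = 0
  · simp [h0]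
  · by_cases h1 : y x n = 1
    · simp [h1]
    · simp [h0, h1]

theorem W_eq (x : ℕ → ℕ) (i j n : ℕ) : S (fun t => lt i j (y x t)) n =
    i * (S (yv x) n).2 + j * ((n : ℤ) - (S (yv x) n).1 - (S (yv x) n).2) := by
  induction n with
  | zero => simp [S]
  | succ n ih =>
    rw [S_succ, S_succ, ih, lt_eq]
    push_cast
    simp only [Prod.fst_add, Prod.snd_add]
    ring

theorem no_cube_ij (i j : ℕ) (hij : Nat.Coprime i j) (hj : 6 ≤ j) (x : ℕ → ℕ) (hx : ∀ i, x i < 6)
    (hbase : ∀ m q : ℕ, 0 < q → ¬ IsCube (fun i => (w (x i) : ℤ)) m q) (n k : ℕ) (hk : 0 < k) :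
    ¬ IsCube (fun t => lt i j (y x t)) n k := by
  rintro ⟨h1, h2⟩
  rw [W_eq, W_eq, W_eq] at h1 h2
  have key : ∀ U Z : ℤ, |U| ≤ 5 → (i : ℤ) * U + j * (0 - Z - U) = 0 → U = 0 ∧ Z = 0 := by
    intro U Z hU h
    have hd : (j : ℤ) ∣ (i : ℤ) * U := ⟨Z + U, by linarith⟩
    have hc : IsCoprime (j : ℤ) (i : ℤ) := by
      rw [Nat.isCoprime_iff_coprime]; exact hij.symm
    have hd' : (j : ℤ) ∣ U := hc.dvd_of_dvd_mul_left hd
    have hU0 : U = 0 := by
      apply Int.eq_zero_of_abs_lt_dvd hd'
      have : (6 : ℤ) ≤ j := by exact_mod_cast hj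
      omega
    refine ⟨hU0, ?_⟩
    subst hU0
    have hj0 : (j : ℤ) ≠ 0 := by
      have : (6 : ℤ) ≤ j := by exact_mod_cast hj
      omega
    have : (j : ℤ) * Z = 0 := by linarith
    exact (mul_eq_zero.1 this).resolve_left hj0
  have b1 := ones_balanced x hx n k
  have b2 := ones_balanced x hx (n + k) k
  rw [show n + k + k = n + 2 * k by ring, show n + k + 2 * k = n + 3 * k by ring] at b2
  have k1 := key _ ((S (yv x) n).1 - 2 * (S (yv x) (n + k)).1 + (S (yv x) (n + 2 * k)).1) b1 (by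
    push_cast at h1
    simp only [nsmul_eq_mul] at h1
    push_cast at h1
    linarith)
  have k2 := key _ ((S (yv x) (n + k)).1 - 2 * (S (yv x) (n + 2 * k)).1 + (S (yv x) (n + 3 * k)).1) b2
    (by
    push_cast at h2
    simp only [nsmul_eq_mul] at h2
    push_cast at h2
    linarith)
  apply no_cube x hx hbase n k hk
  refine ⟨Prod.ext ?_ ?_, Prod.ext ?_ ?_⟩
  · simpa using k1.2
  · simpa using k1.1
  · simpa using k2.2
  · simpa using k2.1

/-- The alphabet `{0, i, j}` is rich. -/
theorem rich (i j : ℕ) (hij : Nat.Coprime i j) (hi : i ≠ 0) (hj : 6 ≤ j) :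
    Rich ({0, (i : ℤ), (j : ℤ)} : Set ℤ) := by
  obtain ⟨x, hx, hxf⟩ := base_word w (by decide) (by decide) (by decide)
  refine rich_of_word _ 44 28 (by norm_num) (fun a r => lt i j (g a r)) x hx (fun a _ r _ => ?_)
    (fun k => ?_) ?_
  · simp only [lt]
    split_ifs <;> simp
  · obtain ⟨m, h1, h2, h3⟩ := window3 44 28 (by norm_num) (by norm_num) x
      (fun a => (w a : ℤ)) hxf 0 k
    refine ⟨m, h1, h2, ?_⟩
    obtain ⟨e1, e2⟩ := cd (x m) (hx m) h3
    simp only [e1, e2, lt]
    simpa using fun h : (0 : ℤ) = i => hi (by exact_mod_cast h.symm)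
  · intro N e v hv hpow
    obtain ⟨n0, len, hlen, hp⟩ := hpow
    set x' : ℕ → ℕ := fun m => x ((m : ℤ) - N) + if e m = true then 3 else 0 with hx'
    have hx6 : ∀ i, x' i < 6 := by
      intro i
      have := hx ((i : ℤ) - N)
      simp only [hx']
      split_ifs <;> omega
    have hvv : ∀ n, v n = lt i j (y x' n) := by
      intro n
      have := hv (n / 44) (n % 44) (Nat.mod_lt _ (by norm_num))
      rw [Nat.div_add_mod] at this
      rw [this]
      rfl
    have hww : (fun i : ℕ => (w (x' i) : ℤ)) =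
        fun i : ℕ => ((fun m : ℤ => (w (x m) : ℤ)) ((i : ℤ) - N)) := by
      funext i
      simp only [hx']
      split_ifs
      · rw [cw _ (hx _)]
      · rfl
    refine no_cube_ij i j hij hj x' hx6 (fun m q hq hc => ?_) n0 len hlen ?_
    · rw [hww] at hc
      exact base_of_shift _ N m q hq hxf hc
    · apply isCube_of_blocks
      intro i hi
      have := hp i hi
      simp only [hvv] at this
      exact this

end Pool.Agent.KS6_50.AC.RTern
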