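import Pool.Graph.R_seed8.Helper776.Cert
import Pool.Graph.R_seed8.Y469.AC.Main

/-!
# Rich alphabets

An alphabet is rich if it carries a family of two-sided infinite words without additive cubes,
parametrised by the two-sided binary sequences, such that every window of 181 consecutive places
shows one bit of the parameter.  A certificate for richness: a uniform map with two images for
the letters of a base word.
-/

set_option autoImplicit false

namespace Pool.Agent.KS6_50.AC

open Finset Pool.Agent.Helper776 Pool.Agent.Helper776.Dekking Pool.Agent.Y469.AC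

/-- The alphabet `A` is rich: to every two-sided binary sequence `ε` belongs a two-sided word `v ε`
over `A` without additive cubes, and in the `k`-th window of length 181 there is a place at which
`v ε` shows the bit `ε k`. -/
def Rich {G : Type*} [AddCommMonoid G] (A : Set G) : Prop :=
  ∃ (v : (ℤ → Bool) → ℤ → G) (pos : ℤ → ℤ) (b c : ℤ → G),
    (∀ ε n, v ε n ∈ A) ∧ (∀ ε, ¬ HasPowerZ 3 (v ε)) ∧
    (∀ k, b k ≠ c k ∧ 181 * k ≤ pos k ∧ pos k < 181 * (k + 1)) ∧
    ∀ ε k, v ε (pos k) = if ε k = true then b k else c k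

/-- Transport of richness along a map of the letters. -/
theorem Rich.map {G H : Type*} [AddCommMonoid G] [AddCommMonoid H] {A : Set G} (h : Rich A)
    (B : Set H) (f : G → H) (hAB : ∀ a ∈ A, f a ∈ B) (hinj : Set.InjOn f A)
    (hp : ∀ w : ℤ → G, (∀ n, w n ∈ A) → HasPowerZ 3 (fun n => f (w n)) → HasPowerZ 3 w) :
    Rich B := by
  obtain ⟨v, pos, b, c, hA, hv, hpos, hbit⟩ := h
  have hb : ∀ k, b k ∈ A := fun k => by
    have := hA (fun _ => true) (pos k)
    rw [hbit] at this
    simpa using this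
  have hc : ∀ k, c k ∈ A := fun k => by
    have := hA (fun _ => false) (pos k)
    rw [hbit] at this
    simpa using this
  refine ⟨fun ε n => f (v ε n), pos, fun k => f (b k), fun k => f (c k),
    fun ε n => hAB _ (hA ε n), fun ε h => hv ε (hp _ (hA ε) h), fun k => ?_, fun ε k => ?_⟩
  · exact ⟨fun h => (hpos k).1 (hinj (hb k) (hc k) h), (hpos k).2⟩
  · simp only [hbit]
    split_ifs <;> rfl

theorem Rich.mono {G : Type*} [AddCommMonoid G] {A B : Set G} (h : Rich A) (hAB : A ⊆ B) :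
    Rich B :=
  h.map B id (fun a ha => hAB ha) (fun _ _ _ _ h => h) (fun _ _ h => h)

/-- from prefix sums to block sums -/
theorem blocks_of_isCube (v : ℕ → ℤ) (m q : ℕ) (h : IsCube v m q) :
    ∀ i < 3, ∑ t ∈ range q, v (m + i * q + t) = ∑ t ∈ range q, v (m + t) := by
  obtain ⟨h1, h2⟩ := h
  have e1 := S_add v m q
  have e2 := S_add v (m + q) q
  have e3 := S_add v (m + 2 * q) q
  rw [show m + q + q = m + 2 * q by ring] at e2
  rw [show m + 2 * q + q = m + 3 * q by ring] at e3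
  simp only [nsmul_eq_mul] at h1 h2
  push_cast at h1 h2
  intro i hi
  rcases (show i = 0 ∨ i = 1 ∨ i = 2 by omega) with rfl | rfl | rfl
  · simp
  · rw [one_mul]; linarith
  · linarith

/-- from block sums to prefix sums -/
theorem isCube_of_blocks (v : ℕ → ℤ) (m q : ℕ)
    (h : ∀ i < 3, ∑ t ∈ range q, v (m + i * q + t) = ∑ t ∈ range q, v (m + t)) : IsCube v m q := by
  have h1 := h 1 (by norm_num)
  have h2 := h 2 (by norm_num)
  rw [one_mul] at h1
  exact Three.block_cube v m q h1.symm (h1.trans h2.symm)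

/-- A two-sided word has no additive cube if its one-sided parts, shifted by multiples of `L`,
have none. -/
theorem not_power_of_shift {G : Type*} [AddCommMonoid G] (L : ℕ) (hL : 0 < L) (v : ℤ → G)
    (h : ∀ M : ℕ, ¬ HasPower 3 (fun n : ℕ => v (n - L * M))) : ¬ HasPowerZ 3 v := by
  rintro ⟨p, len, hlen, hp⟩
  refine h p.natAbs ⟨(p + L * p.natAbs).toNat, len, hlen, fun i hi => ?_⟩
  have hnn : 0 ≤ p + (L : ℤ) * p.natAbs := by
    have h1 : (p.natAbs : ℤ) = |p| := Int.natCast_natAbs p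
    have h2 : |p| ≤ L * |p| := by
      have : (1 : ℤ) ≤ L := by exact_mod_cast hL
      nlinarith [abs_nonneg p]
    have h3 := neg_abs_le p
    rw [h1]; linarith
  have hcast : (((p + (L : ℤ) * p.natAbs).toNat : ℕ) : ℤ) = p + (L : ℤ) * p.natAbs :=
    Int.toNat_of_nonneg hnn
  have key : ∀ j : ℕ, v ((((p + (L : ℤ) * p.natAbs).toNat + j : ℕ) : ℤ) - L * (p.natAbs : ℕ)) =
      v (p + j) := by
    intro j
    congr 1
    rw [Nat.cast_add, hcast]
    ring
  have h1 := hp i hi
  have e1 : ∀ t ∈ range len, v ((((p + (L : ℤ) * p.natAbs).toNat + i * len + t : ℕ) : ℤ) -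
      L * (p.natAbs : ℕ)) = v (p + i * len + t) := by
    intro t _
    rw [add_assoc ((p + (L : ℤ) * p.natAbs).toNat), key]
    congr 1
    push_cast
    ring
  have e2 : ∀ t ∈ range len, v ((((p + (L : ℤ) * p.natAbs).toNat + t : ℕ) : ℤ) -
      L * (p.natAbs : ℕ)) = v (p + t) := fun t _ => key t
  exact (sum_congr rfl e1).trans (h1.trans (sum_congr rfl e2).symm)

/-- The shifted extended word. -/
theorem base_of_shift (W : ℤ → ℤ) (M m q : ℕ) (hq : 0 < q) (hW : ¬ HasPowerZ 3 W)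
    (h : IsCube (fun i : ℕ => W ((i : ℤ) - M)) m q) : False := by
  refine hW ⟨(m : ℤ) - M, q, hq, fun i hi => ?_⟩
  have := blocks_of_isCube _ m q h i hi
  have e1 : ∀ t ∈ range q, W ((m : ℤ) - M + i * q + t) = W (((m + i * q + t : ℕ) : ℤ) - M) := by
    intro t _
    congr 1
    push_cast
    ring
  have e2 : ∀ t ∈ range q, W ((m : ℤ) - M + t) = W (((m + t : ℕ) : ℤ) - M) := by
    intro t _
    congr 1
    push_cast
    ring
  rw [sum_congr rfl e1, sum_congr rfl e2]
  exact this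

/-- The two-sided word with blocks `F a r`, where `a` is the letter of the base word or its twin
`a + 3`, according to the bit of the window. -/
def word {V : Type*} (L r0 : ℕ) (F : ℕ → ℕ → V) (x : ℤ → ℕ) (ε : ℤ → Bool) (n : ℤ) : V :=
  F (x (n / L) + if ε ((L * (n / L) + r0) / 181) = true then 3 else 0) (n % L).toNat

theorem word_shift {V : Type*} (L r0 : ℕ) (hL : 0 < L) (F : ℕ → ℕ → V) (x : ℤ → ℕ)
    (ε : ℤ → Bool) (M m r : ℕ) (hr : r < L) :
    word L r0 F x ε (((L * m + r : ℕ) : ℤ) - L * M) =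
      F (x ((m : ℤ) - M) + if ε ((L * ((m : ℤ) - M) + r0) / 181) = true then 3 else 0) r := by
  have hL' : (0 : ℤ) < L := by exact_mod_cast hL
  have e : ((L * m + r : ℕ) : ℤ) - L * M = r + L * ((m : ℤ) - M) := by push_cast; ring
  have h1 : (((L * m + r : ℕ) : ℤ) - L * M) / L = (m : ℤ) - M := by
    rw [e, Int.add_mul_ediv_left _ _ hL'.ne', Int.ediv_eq_zero_of_lt (by positivity)
      (by exact_mod_cast hr), zero_add]
  have h2 : (((L * m + r : ℕ) : ℤ) - L * M) % L = r := by
    rw [e, Int.add_mul_emod_self_left]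
    exact Int.emod_eq_of_lt (by positivity) (by exact_mod_cast hr)
  unfold word
  rw [h1, h2, Int.toNat_natCast]

/-- the value of the word at a marked place -/
theorem word_pos {V : Type*} (L r0 : ℕ) (hr0 : r0 < L) (F : ℕ → ℕ → V) (x : ℤ → ℕ)
    (ε : ℤ → Bool) (m k : ℤ) (h1 : 181 * k ≤ L * m + r0) (h2 : (L : ℤ) * m + r0 < 181 * (k + 1)) :
    word L r0 F x ε (L * m + r0) = F (x m + if ε k = true then 3 else 0) r0 := by
  have hL' : (0 : ℤ) < L := by exact_mod_cast (Nat.zero_lt_of_lt hr0)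
  have e1 : ((L : ℤ) * m + r0) / L = m := by
    rw [Int.add_comm, Int.add_mul_ediv_left _ _ hL'.ne', Int.ediv_eq_zero_of_lt (by positivity)
      (by exact_mod_cast hr0), zero_add]
  have e2 : ((L : ℤ) * m + r0) % L = r0 := by
    rw [Int.add_comm, Int.add_mul_emod_self_left]
    exact Int.emod_eq_of_lt (by positivity) (by exact_mod_cast hr0)
  have e3 : ((L : ℤ) * m + r0) / 181 = k := by omega
  unfold word
  rw [e1, e2, e3, Int.toNat_natCast]

/-- Richness from a family of words `word L r0 F x ε`. -/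
theorem rich_of_word {V : Type*} [AddCommMonoid V] (A : Set V) (L r0 : ℕ) (hr0 : r0 < L)
    (F : ℕ → ℕ → V) (x : ℤ → ℕ) (hx : ∀ m, x m < 3) (hA : ∀ a < 6, ∀ r < L, F a r ∈ A)
    (hwin : ∀ k : ℤ, ∃ m : ℤ, 181 * k ≤ L * m + r0 ∧ (L : ℤ) * m + r0 < 181 * (k + 1) ∧
      F (x m + 3) r0 ≠ F (x m) r0)
    (hno : ∀ (M : ℕ) (e : ℕ → Bool) (y : ℕ → V),
      (∀ m r, r < L → y (L * m + r) = F (x ((m : ℤ) - M) + if e m = true then 3 else 0) r) →
      ¬ HasPower 3 y) : Rich A := by
  have hL : 0 < L := Nat.zero_lt_of_lt hr0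
  choose m hm1 hm2 hm3 using hwin
  refine ⟨word L r0 F x, fun k => L * m k + r0, fun k => F (x (m k) + 3) r0,
    fun k => F (x (m k)) r0, fun ε n => ?_, fun ε => ?_, fun k => ⟨hm3 k, hm1 k, hm2 k⟩,
    fun ε k => ?_⟩
  · unfold word
    apply hA
    · have := hx (n / L)
      split_ifs <;> omega
    · have h1 : n % L < L := Int.emod_lt_of_pos _ (by exact_mod_cast hL)
      have h2 : 0 ≤ n % L := Int.emod_nonneg _ (by exact_mod_cast hL.ne')
      omega
  · apply not_power_of_shift L hL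
    intro M
    apply hno M (fun m => ε ((L * ((m : ℤ) - M) + r0) / 181))
    intro m r hr
    exact word_shift L r0 hL F x ε M m r hr
  · rw [word_pos L r0 hr0 F x ε (m k) k (hm1 k) (hm2 k)]
    split_ifs <;> simp

/-- If all letters have two images, every window contains a marked place. -/
theorem window (L r0 : ℕ) (hL : 0 < L) (hL' : L ≤ 181) (k : ℤ) :
    ∃ m : ℤ, 181 * k ≤ L * m + r0 ∧ (L : ℤ) * m + r0 < 181 * (k + 1) := by
  refine ⟨(181 * k + 180 - r0) / L, ?_, ?_⟩
  · have h1 := Int.lt_ediv_add_one_mul_self (181 * k + 180 - (r0 : ℤ)) (show (0 : ℤ) < L by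
      exact_mod_cast hL)
    have h2 : (L : ℤ) ≤ 181 := by exact_mod_cast hL'
    have h3 : (L : ℤ) * ((181 * k + 180 - r0) / L) + L > 181 * k + 180 - r0 := by linarith
    omega
  · have h1 := Int.ediv_mul_le (181 * k + 180 - (r0 : ℤ)) (show (L : ℤ) ≠ 0 by
      exact_mod_cast hL.ne')
    have h3 : (L : ℤ) * ((181 * k + 180 - r0) / L) ≤ 181 * k + 180 - r0 := by linarith
    omega

/-- Three consecutive letters of a word without cubes are not all equal, so in every window of
length `3 L ≤ 181` there is a marked block whose letter is not `a₀`. -/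
theorem window3 (L r0 : ℕ) (hL : 0 < L) (hL' : 3 * L ≤ 181) (x : ℤ → ℕ) (W : ℕ → ℤ)
    (hW : ¬ HasPowerZ 3 (fun m => W (x m))) (a₀ : ℕ) (k : ℤ) :
    ∃ m : ℤ, 181 * k ≤ L * m + r0 ∧ (L : ℤ) * m + r0 < 181 * (k + 1) ∧ x m ≠ a₀ := by
  have hL0 : (0 : ℤ) < L := by exact_mod_cast hL
  have h3 : 3 * (L : ℤ) ≤ 181 := by exact_mod_cast hL'
  obtain ⟨m, hm1, hm2⟩ : ∃ m : ℤ, 181 * k ≤ L * m + r0 ∧ (L : ℤ) * (m + 2) + r0 < 181 * (k + 1) := by
    refine ⟨(181 * k + (L - 1) - r0) / L, ?_, ?_⟩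
    · have h1 := Int.lt_ediv_add_one_mul_self (181 * k + (L - 1) - (r0 : ℤ)) hL0
      have h4 : (L : ℤ) * ((181 * k + (L - 1) - r0) / L) + L > 181 * k + (L - 1) - r0 := by linarith
      omega
    · have h1 := Int.ediv_mul_le (181 * k + (L - 1) - (r0 : ℤ)) hL0.ne'
      have h4 : (L : ℤ) * ((181 * k + (L - 1) - r0) / L) ≤ 181 * k + (L - 1) - r0 := by linarith
      have h5 : (L : ℤ) * ((181 * k + (L - 1) - r0) / L + 2) =
        (L : ℤ) * ((181 * k + (L - 1) - r0) / L) + 2 * L := by ring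
      rw [h5]
      linarith
  by_contra hcon
  push Not at hcon
  have e0 : x m = a₀ := hcon m hm1 (by nlinarith)
  have e1 : x (m + 1) = a₀ := hcon (m + 1) (by nlinarith) (by nlinarith)
  have e2 : x (m + 2) = a₀ := hcon (m + 2) (by nlinarith) (by nlinarith)
  apply hW
  refine ⟨m, 1, by norm_num, fun i hi => ?_⟩
  rcases (show i = 0 ∨ i = 1 ∨ i = 2 by omega) with rfl | rfl | rfl
  · simp
  · simp [e0, e1]
  · simp [e0, e2]

/-- Richness from a certificate for a uniform map with integer letters: letters `a` and `a + 3`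
are the two images of the base letter `a < 3`; the types of the boundaries are given by the
switch places `sw`. -/
theorem rich_of_cert (A : Set ℤ) (L al be ta r0 : ℕ) (w sw : ℕ → ℕ) (G p : ℕ → ℕ → ℕ)
    (mask M : ℕ) (hr0 : r0 < L) (hal : 0 < al) (hbe : al ∣ be + ta) (hco : Nat.Coprime ta L)
    (hA : ∀ a < 6, ∀ r < L, (G a r : ℤ) ∈ A)
    (hw : ∀ a < 3, w (a + 3) = w a)
    (h0 : ∀ a < 6, p a 0 = 0) (hLt : ∀ a < 6, p a L = be + al * w a)
    (hs : ∀ a < 6, ∀ r < L, p a (r + 1) = p a r + G a r)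
    (hmem : ∀ a < 6, ∀ r < L, mask.testBit (Cert.cls L al ta p a r) = true)
    (hM : ∀ e < 4 * (L * al), M.testBit e = mask.testBit (e % (L * al)))
    (hAP : ∀ d < L * al, 0 < d →
      (mask &&& (M >>> d) &&& (M >>> (2 * d)) &&& (M >>> (3 * d))) = 0)
    (hty : ∀ r < L, ∀ a < 6, ∀ b < 6, p a r % al = p b r % al →
      ((r < sw a ∧ r < sw b ∧ p a r = p b r) ∨
       (sw a ≤ r ∧ sw b ≤ r ∧ p a r + al * w b = p b r + al * w a)))
    (x : ℤ → ℕ) (hx : ∀ m, x m < 3) (hbase : ¬ HasPowerZ 3 (fun m => (w (x m) : ℤ)))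
    (hwin : ∀ k : ℤ, ∃ m : ℤ, 181 * k ≤ L * m + r0 ∧ (L : ℤ) * m + r0 < 181 * (k + 1) ∧
      G (x m + 3) r0 ≠ G (x m) r0) : Rich A := by
  have hL : 0 < L := Nat.zero_lt_of_lt hr0
  have hty4 : ∀ r < L, ∀ a0 < 6, ∀ a1 < 6, ∀ a2 < 6, ∀ a3 < 6,
      (p a0 r % al = p a1 r % al ∧ p a1 r % al = p a2 r % al ∧ p a2 r % al = p a3 r % al) →
      ((p a0 r = p a1 r ∧ p a1 r = p a2 r ∧ p a2 r = p a3 r) ∨
       (p a0 r + al * w a1 = p a1 r + al * w a0 ∧ p a1 r + al * w a2 = p a2 r + al * w a1 ∧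
        p a2 r + al * w a3 = p a3 r + al * w a2)) := by
    rintro r hr a0 k0 a1 k1 a2 k2 a3 k3 ⟨e1, e2, e3⟩
    rcases hty r hr a0 k0 a1 k1 e1 with ⟨s1, s2, s3⟩ | ⟨s1, s2, s3⟩ <;>
    rcases hty r hr a1 k1 a2 k2 e2 with ⟨t1, t2, t3⟩ | ⟨t1, t2, t3⟩ <;>
    rcases hty r hr a2 k2 a3 k3 e3 with ⟨u1, u2, u3⟩ | ⟨u1, u2, u3⟩ <;>
    first
      | (exfalso; omega)
      | (left; exact ⟨s3, t3, u3⟩)
      | (right; exact ⟨s3, t3, u3⟩)
  apply rich_of_word A L r0 hr0 (fun a r => (G a r : ℤ)) x hx hA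
  · intro k
    obtain ⟨m, h1, h2, h3⟩ := hwin k
    exact ⟨m, h1, h2, fun h => h3 (by exact_mod_cast h)⟩
  · intro N e y hy hpow
    obtain ⟨n0, len, hlen, hp⟩ := hpow
    set x' : ℕ → ℕ := fun m => x ((m : ℤ) - N) + if e m = true then 3 else 0 with hx'
    set y' : ℕ → ℕ := fun n => G (x' (n / L)) (n % L) with hy'
    have hyy : ∀ n, y n = (y' n : ℤ) := by
      intro n
      have := hy (n / L) (n % L) (Nat.mod_lt _ hL)
      rw [Nat.div_add_mod] at this
      rw [this]
    have hx6 : ∀ i, x' i < 6 := by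
      intro i
      have := hx ((i : ℤ) - N)
      simp only [hx']
      split_ifs <;> omega
    have hc : IsCube (fun i => (y' i : ℤ)) n0 len := by
      apply isCube_of_blocks
      intro i hi
      have := hp i hi
      simp only [hyy] at this
      exact this
    obtain ⟨m, q, rfl, hq⟩ := Cert.uniform_descent 6 L al be ta w G p mask M hL hal hbe hco h0 hLt
      hs hmem hM hAP hty4 x' hx6 y' (fun m r hr => by
        have h1 : (L * m + r) / L = m := by
          rw [Nat.mul_add_div hL, Nat.div_eq_of_lt hr, add_zero]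
        have h2 : (L * m + r) % L = r := by
          rw [Nat.mul_add_mod, Nat.mod_eq_of_lt hr]
        simp only [hy', h1, h2]) n0 len hc
    have hq0 : 0 < q := by
      rcases Nat.eq_zero_or_pos q with h | h
      · subst h; simp at hlen
      · exact h
    have hww : (fun i : ℕ => (w (x' i) : ℤ)) = fun i : ℕ => ((fun m : ℤ => (w (x m) : ℤ)) ((i : ℤ) - N)) := by
      funext i
      simp only [hx']
      split_ifs
      · rw [hw _ (hx _)]
      · rfl
    rw [hww] at hq
    exact base_of_shift _ N m q hq0 hbase hq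

end Pool.Agent.KS6_50.AC
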